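import Pool.Agent.Y578.Spl.Since

set_option autoImplicit false

/-!
# Splay trees against an arbitrary sequence of search trees with free restructuring

`Tr`, `keys`, `IsBST`, `dep`, `splay`, `costSplay` are those of `Pool.Agent.H581R2.SplayDef`;
`since T x i a` is the greatest depth of the key `a` in the trees `T s`, `s ≤ i`, such that `a` is not
requested by `x s, …, x (i - 1)`, i.e. the greatest depth of `a` in the trees since its last request.

Let `T 0, T 1, T 2, …` be *any* search trees on the same keys: `T (i + 1)` need not be close to `T i`,
restructuring is free. The requests are `x 0, x 1, …`; the request `x i` is searched in `T i`. Then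
splaying, from the initial tree `T 0`, costs at most

  `∑ (7 + 15 * (the greatest depth of x i in the trees since its last request))`,

without any additive term. (1) is this inequality. (2) is the consequence for competitors which never
promote a key that is not requested: if `dep a (T i) ≤ dep a (T (i + 1))` for all keys `a ≠ x i`, then
splaying costs at most fifteen times as much as the searches alone, `∑ (1 + dep (x i) (T i))`, in
these trees; no charge is made for the restructuring. So splay trees are dynamically optimal, without
additive term, against all executions in which keys are promoted only when they are requested, even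
if all rotations are free.

The static optimality theorem is the case of a constant sequence; the working set bound is the case in
which the key with working set number `k` has depth `O(log k)`.
-/

namespace Pool.Agent.Results.MP_c42954_lc.MaxDepth

open Pool.Agent.H581R2.Splay Pool.Agent.Y578.Spl

theorem since_le {T : ℕ → Tr} {x : ℕ → ℕ}
    (hm : ∀ i a, a ≠ x i → a ∈ keys (T 0) → dep a (T i) ≤ dep a (T (i + 1))) (i : ℕ) {a : ℕ}
    (ha : a ∈ keys (T 0)) : since T x i a ≤ dep a (T i) := by
  unfold since
  refine Finset.sup_le ?_
  intro s hs
  rw [Finset.mem_filter, Finset.mem_range] at hs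
  obtain ⟨h1, h2⟩ := hs
  obtain ⟨d, rfl⟩ : ∃ d, i = s + d := ⟨i - s, by omega⟩
  clear h1
  induction d with
  | zero => exact le_refl _
  | succ d ih =>
    refine (ih fun j hj hs => h2 j (by omega) hs).trans ?_
    exact hm (s + d) a (fun h => h2 (s + d) (by omega) (by omega) h.symm) ha

theorem result (T : ℕ → Tr) (x : ℕ → ℕ) (m : ℕ) (hb : IsBST (T 0))
    (hk : ∀ s, keys (T s) = keys (T 0)) (hx : ∀ i < m, x i ∈ keys (T 0)) :
    costSplay (T 0) ((List.range m).map x) ≤
      ∑ i ∈ Finset.range m, (7 + 15 * since T x i (x i)) ∧
    ((∀ i a, a ≠ x i → a ∈ keys (T 0) → dep a (T i) ≤ dep a (T (i + 1))) →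
      costSplay (T 0) ((List.range m).map x) ≤
        15 * ∑ i ∈ Finset.range m, (1 + dep (x i) (T i))) := by
  have h := cost_since hb hk hx
  refine ⟨h, fun hm => h.trans ?_⟩
  rw [Finset.mul_sum]
  refine Finset.sum_le_sum fun i hi => ?_
  have h1 := since_le hm i (hx i (Finset.mem_range.1 hi))
  omega

end Pool.Agent.Results.MP_c42954_lc.MaxDepth
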